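import Pool.Agent.Helper19.QR.Main
import Pool.Agent.Helper15.QD.Q1C

/-!
# Compact spaces whose small closures are Eberlein compact: a combinatorial equivalent

`Q1` is the question of the problem file: a compact Hausdorff space all of whose subsets of size at
most the continuum have Eberlein compact closure is Eberlein compact. We prove in ZFC that `Q1` is
equivalent to the following reflection statement for simplicial complexes (families of finite sets
closed under subsets): if every set of at most continuum many vertices is a countable union of sets
without infinite cliques, then so is the set of all vertices. An infinite clique is an infinite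
set of vertices all of whose finite subsets belong to the complex. For the finite chains of a tree
this is Rado's conjecture at the continuum. The restriction of `Q1` to Corson compact spaces is
equivalent to the same statement.
-/

set_option autoImplicit false

namespace Pool.Agent.Results.MP_ba6bfd_gt.CliqueReflection

open Cardinal

/-- The statement of the question, as in the problem file: if the closure of every subset of size
at most the continuum of the compact Hausdorff space `X` embeds as a bounded pointwise compact
subset of some `c₀(Γ)`, then so does `X`. -/
def Q1 : Prop :=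
  ∀ (X : Type) [TopologicalSpace X] [CompactSpace X] [T2Space X],
    (∀ A : Set X, Cardinal.mk A ≤ Cardinal.continuum →
      ∃ (Γ : Type) (f : ↥(closure A) → (Γ → ℝ)), Continuous f ∧ Function.Injective f ∧
        (∀ x, Filter.Tendsto (f x) Filter.cofinite (nhds 0)) ∧
        ∃ M : ℝ, ∀ x γ, |f x γ| ≤ M) →
    ∃ (Γ : Type) (f : X → (Γ → ℝ)), Continuous f ∧ Function.Injective f ∧
      (∀ x, Filter.Tendsto (f x) Filter.cofinite (nhds 0)) ∧
      ∃ M : ℝ, ∀ x γ, |f x γ| ≤ M

/-- The question for Corson compact spaces: `Q1` for the compact spaces `X` which embed in a
`Σ`-product of real lines. -/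
def Q1Corson : Prop :=
  ∀ (X : Type) [TopologicalSpace X] [CompactSpace X] [T2Space X],
    (∃ (Γ : Type) (f : X → (Γ → ℝ)), Continuous f ∧ Function.Injective f ∧
      ∀ x, {γ | f x γ ≠ 0}.Countable) →
    (∀ A : Set X, Cardinal.mk A ≤ Cardinal.continuum →
      ∃ (Γ : Type) (f : ↥(closure A) → (Γ → ℝ)), Continuous f ∧ Function.Injective f ∧
        (∀ x, Filter.Tendsto (f x) Filter.cofinite (nhds 0)) ∧
        ∃ M : ℝ, ∀ x γ, |f x γ| ≤ M) →
    ∃ (Γ : Type) (f : X → (Γ → ℝ)), Continuous f ∧ Function.Injective f ∧
      (∀ x, Filter.Tendsto (f x) Filter.cofinite (nhds 0)) ∧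
      ∃ M : ℝ, ∀ x γ, |f x γ| ≤ M

/-- The set `W` of vertices is the union of countably many sets `{v ∈ W | f v = n}` which contain
no infinite clique of `S`, i.e. no infinite set all of whose finite subsets belong to `S`. -/
def Thin {V : Type} (S : Set (Finset V)) (W : Set V) : Prop :=
  ∃ f : V → ℕ, ∀ (n : ℕ) (A : Set V), A ⊆ W → (∀ v ∈ A, f v = n) →
    (∀ F : Finset V, (↑F : Set V) ⊆ A → F ∈ S) → A.Finite

/-- Clique reflection at the continuum: if every set of at most continuum many vertices of a
simplicial complex `S` is a countable union of sets without infinite cliques, then so is the set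
of all vertices. -/
def CliqueReflection : Prop :=
  ∀ (V : Type) (S : Set (Finset V)), (∀ F ∈ S, ∀ G ⊆ F, G ∈ S) →
    (∀ W : Set V, Cardinal.mk W ≤ Cardinal.continuum → Thin S W) → Thin S Set.univ

/-- `W` is a countable union of antichains. -/
def Special {T : Type} [PartialOrder T] (W : Set T) : Prop :=
  ∃ f : T → ℕ, ∀ s ∈ W, ∀ t ∈ W, f s = f t → ¬ s < t

/-- Rado's conjecture at the continuum: a tree (a well-founded partial order in which the
predecessors of every element form a chain) all of whose subsets of size at most the continuum are
countable unions of antichains is a countable union of antichains. -/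
def RadoAtContinuum : Prop :=
  ∀ (T : Type) [PartialOrder T] [WellFoundedLT T],
    (∀ t : T, IsChain (· ≤ ·) (Set.Iio t)) →
    (∀ W : Set T, Cardinal.mk W ≤ Cardinal.continuum → Special W) →
    Special (Set.univ : Set T)

/-- The question, and its restriction to Corson compact spaces, are equivalent to clique reflection
at the continuum; the question implies Rado's conjecture at the continuum. -/
theorem result : (Q1 ↔ CliqueReflection) ∧ (Q1Corson ↔ CliqueReflection) ∧
    (Q1 → RadoAtContinuum) :=
  ⟨Pool.Agent.Helper19.QR.main.1,
    ⟨fun h => Pool.Agent.Helper15.QD.cr_of_q1c h,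
      fun h X _ _ _ _ hX => Pool.Agent.Helper19.QR.main.1.2 h X hX⟩,
    Pool.Agent.Helper19.QR.main.2⟩

end Pool.Agent.Results.MP_ba6bfd_gt.CliqueReflection
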