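import Pool.Agent.Helper15.QD.Final

/-!
# Compact spaces with small Eberlein closures: scattered spaces, and Corson compactness

Let (*) be the hypothesis of the question: the closures of all subsets of size at most the continuum of the
compact space `X` are Eberlein compact. We prove, in ZFC, that the following are equivalent:

1. the question has a positive answer for scattered spaces (every scattered compact space with (*) is
   Eberlein compact);
2. every compact space with (*) is Corson compact (Eberlein compact spaces are Corson compact);
3. Corson compactness reflects: every compact space, all of whose subsets of size at most the continuum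
   have Corson compact closure, is Corson compact;
4. sigma-discreteness of subsets of the metric spaces `D ^ ω` reflects to subsets of size at most the continuum;
5. Fodor's lemma reflects above the continuum: for regular `κ > 𝔠`, stationary `E ⊆ κ` and countable sets
   `a α ⊆ α`, `α ∈ E`, already for some `β < κ` the family `a α`, `α ∈ E ∩ β`, has no one-to-one choice
   function (by Fodor's lemma the whole family has none).

All of them follow from Rado's conjecture at the continuum.
-/

set_option autoImplicit false

open Set Cardinal

namespace Pool.Agent.Results.MP_ba6bfd_gt.CorsonReflection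

/-- `X` embeds as a bounded pointwise compact subset of some `c₀(Γ)` (for compact `X`: `X` is Eberlein
compact), as in the frozen statement of the problem. -/
def IsEberlein (X : Type) [TopologicalSpace X] : Prop :=
  ∃ (Γ : Type) (f : X → (Γ → ℝ)), Continuous f ∧ Function.Injective f ∧
    (∀ x, Filter.Tendsto (f x) Filter.cofinite (nhds 0)) ∧ ∃ M : ℝ, ∀ x γ, |f x γ| ≤ M

/-- `X` embeds in a `Σ`-product of lines (for compact `X`: `X` is Corson compact). -/
def IsCorson (X : Type) [TopologicalSpace X] : Prop :=
  ∃ (Γ : Type) (f : X → (Γ → ℝ)), Continuous f ∧ Function.Injective f ∧ ∀ x, {γ | f x γ ≠ 0}.Countable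

/-- Every nonempty subset of `X` has an isolated point. -/
def IsScattered (X : Type) [TopologicalSpace X] : Prop :=
  ∀ S : Set X, S.Nonempty → ∃ x ∈ S, ∃ U : Set X, IsOpen U ∧ U ∩ S = {x}

/-- The question for scattered spaces: every scattered compact space, all of whose subsets of size at most
the continuum have Eberlein compact closure, is Eberlein compact. -/
def ScatteredQuestion : Prop :=
  ∀ (X : Type) [TopologicalSpace X] [CompactSpace X] [T2Space X], IsScattered X →
    (∀ A : Set X, #A ≤ 𝔠 → IsEberlein (closure A)) → IsEberlein X

/-- Every compact space, all of whose subsets of size at most the continuum have Eberlein compact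
closure, is Corson compact. -/
def EberleinClosuresCorson : Prop :=
  ∀ (X : Type) [TopologicalSpace X] [CompactSpace X] [T2Space X],
    (∀ A : Set X, #A ≤ 𝔠 → IsEberlein (closure A)) → IsCorson X

/-- Every compact space, all of whose subsets of size at most the continuum have Corson compact
closure, is Corson compact. -/
def CorsonClosuresCorson : Prop :=
  ∀ (X : Type) [TopologicalSpace X] [CompactSpace X] [T2Space X],
    (∀ A : Set X, #A ≤ 𝔠 → IsCorson (closure A)) → IsCorson X

/-- The set `A` of sequences in `D` is sigma-discrete: it is the union of sets `A_0, A_1, ...` such that any two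
different members of `A_n` differ at a place `< n`. (Equivalently, `A` is a countable union of
discrete subspaces of the product space `ℕ → D`, `D` discrete.) -/
def SigmaDiscrete {D : Type} (A : Set (ℕ → D)) : Prop :=
  ∃ m : (ℕ → D) → ℕ, ∀ a ∈ A, ∀ b ∈ A, m a = m b → (∀ k < m a, a k = b k) → a = b

/-- A set of sequences is sigma-discrete if all its subsets of size at most the continuum are. -/
def SigmaDiscreteReflection : Prop :=
  ∀ (D : Type) (A : Set (ℕ → D)), (∀ B ⊆ A, #B ≤ 𝔠 → SigmaDiscrete B) → SigmaDiscrete A

/-- For every regular `κ > 𝔠`, stationary `E ⊆ κ` and countable sets `a α ⊆ α`, `α ∈ E`, there is `β < κ` such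
that the family `a α`, `α ∈ E ∩ β`, has no one-to-one choice function. -/
def FodorReflection : Prop :=
  ∀ κ : Cardinal.{0}, κ.IsRegular → 𝔠 < κ → ∀ (E : Set κ.ord.ToType) (a : κ.ord.ToType → Set κ.ord.ToType),
    IsStationary E → (∀ α ∈ E, (a α).Countable ∧ a α ⊆ Iio α) →
      ∃ β, ¬ ∃ f : κ.ord.ToType → κ.ord.ToType, (∀ α ∈ E ∩ Iio β, f α ∈ a α) ∧ InjOn f (E ∩ Iio β)

/-- The set `W` of nodes is a countable union of antichains. -/
def Special {T : Type} [PartialOrder T] (W : Set T) : Prop :=
  ∃ f : T → ℕ, ∀ s ∈ W, ∀ t ∈ W, f s = f t → ¬ s < t

/-- Rado's conjecture at the continuum: a tree all of whose subsets of size at most the continuum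
are countable unions of antichains is a countable union of antichains. -/
def RadoContinuum : Prop :=
  ∀ (T : Type) [PartialOrder T] [WellFoundedLT T], (∀ t : T, IsChain (· ≤ ·) (Iio t)) →
    (∀ W : Set T, #W ≤ 𝔠 → Special W) → Special (univ : Set T)

/-- The question for scattered spaces, the statement that (*) implies Corson compact, the reflection of Corson compactness, of
sigma-discreteness and of Fodor's lemma are equivalent, and they follow from Rado's conjecture at
the continuum. -/
theorem result :
    List.TFAE [ScatteredQuestion, EberleinClosuresCorson, CorsonClosuresCorson, SigmaDiscreteReflection,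
      FodorReflection] ∧ (RadoContinuum → FodorReflection) := by
  have h1 : ScatteredQuestion ↔ FodorReflection := Pool.Agent.Helper15.QD.scattered_iff
  have h2 : EberleinClosuresCorson ↔ FodorReflection := Pool.Agent.Helper15.QD.corson_of_embeds_iff
  have h3 : CorsonClosuresCorson ↔ FodorReflection := Pool.Agent.Helper15.QD.corson_of_corson_iff
  have h4 : SigmaDiscreteReflection ↔ FodorReflection := Pool.Agent.Helper15.QD.dr_iff_fr
  refine ⟨?_, Pool.Agent.Helper15.QD.fr_of_rc⟩
  tfae_have 1 ↔ 5 := h1
  tfae_have 2 ↔ 5 := h2
  tfae_have 3 ↔ 5 := h3
  tfae_have 4 ↔ 5 := h4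
  tfae_finish

end Pool.Agent.Results.MP_ba6bfd_gt.CorsonReflection
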