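import Pool.Agent.Helper93.EC.Main
import Pool.Agent.Helper15.QD.Fine

/-!
# Compact spaces whose small closures are Eberlein compact: two opposite answers

`Q1` is the question of the problem file: a compact Hausdorff space `X`, all of whose subsets of
size at most the continuum have Eberlein compact closure, is Eberlein compact.

* If some regular cardinal above the continuum carries a non-reflecting stationary set of points of
  countable cofinality, then `Q1` is false. In other words, `Q1` implies that every stationary set of
  points of countable cofinality of a regular cardinal above the continuum reflects.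
* If every power set carries a fine probability measure, defined on all subsets and concentrated on
  the sets of size at most the continuum, then `Q1` is true.
-/

set_option autoImplicit false

namespace Pool.Agent.Results.MP_ba6bfd_gt.Independence

open Cardinal

/-- The statement of the question, as in the problem file: if the closure of every subset of size
at most the continuum of the compact Hausdorff space `X` embeds as a bounded pointwise compact
subset of some `c₀(Γ)`, then so does `X`. -/
def Q1 : Prop :=
  ∀ (X : Type) [TopologicalSpace X] [CompactSpace X] [T2Space X],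
    (∀ A : Set X, Cardinal.mk A ≤ Cardinal.continuum →
      ∃ (Γ : Type) (f : ↥(closure A) → (Γ → ℝ)), Continuous f ∧ Function.Injective f ∧
        (∀ x, Filter.Tendsto (f x) Filter.cofinite (nhds 0)) ∧
        ∃ M : ℝ, ∀ x γ, |f x γ| ≤ M) →
    ∃ (Γ : Type) (f : X → (Γ → ℝ)), Continuous f ∧ Function.Injective f ∧
      (∀ x, Filter.Tendsto (f x) Filter.cofinite (nhds 0)) ∧
      ∃ M : ℝ, ∀ x γ, |f x γ| ≤ M

/-- For some regular cardinal `κ > 𝔠` there is a stationary set `S` of ordinals below `κ`, all of
countable cofinality, no initial segment `S ∩ a` of which is stationary in `a` (for `a` of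
uncountable cofinality). -/
def NonReflectingSet : Prop :=
  ∃ κ : Cardinal.{0}, κ.IsRegular ∧ continuum < κ ∧ ∃ S : Set κ.ord.ToType,
    IsStationary S ∧ (∀ δ ∈ S, Order.cof (Set.Iio δ) = aleph0) ∧
    ∀ a : κ.ord.ToType, aleph0 < Order.cof (Set.Iio a) →
      ¬ IsStationary {x : Set.Iio a | (x : κ.ord.ToType) ∈ S}

/-- Every power set `Set T` carries a countably additive probability measure `μ`, defined on all
subsets of `Set T`, such that almost every `A` has size at most the continuum and every `x` lies in
almost every `A` (fineness). -/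
def FineMeasures : Prop :=
  ∀ T : Type, ∃ μ : @MeasureTheory.Measure (Set T) ⊤,
    μ Set.univ = 1 ∧ μ {A | ¬ (#A ≤ continuum)} = 0 ∧ ∀ x : T, μ {A | x ∉ A} = 0

open Pool.Agent.Helper93.EC in
theorem not_Q1 (h : NonReflectingSet) : ¬ Q1 := by
  obtain ⟨κ, hκ, hκc, S, hS, hcof, hnr⟩ := h
  have hcofα : Order.cof κ.ord.ToType = κ := by
    rw [Ordinal.cof_toType, hκ.cof_ord]
  have hinf : aleph0 < κ := aleph0_le_continuum.trans_lt hκc
  have hreg : ∀ i : κ.ord.ToType, #(Set.Iic i) < Order.cof κ.ord.ToType := by
    intro i
    rw [hcofα]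
    have h1 : #(Set.Iio i) < κ := by simpa using mk_Iio_lt i
    have h2 : #(Set.Iic i) ≤ #(Set.Iio i) + 1 := by
      rw [← Set.Iio_insert]
      exact mk_insert_le
    exact h2.trans_lt (add_lt_of_lt hinf.le h1 (one_lt_aleph0.trans hinf))
  have hα : aleph0 < Order.cof κ.ord.ToType := by
    rw [hcofα]
    exact hinf
  obtain ⟨l, hl⟩ := exists_ladder_system hcof
  intro hQ
  have hcomp : CompactSpace (LX S l) := compact_LX hl
  have := hQ (LX S l) (by
    intro A hA
    have hidx : ∀ x : LX S l, ∃ i : κ.ord.ToType, ∀ a, i ≤ a →
        (x : κ.ord.ToType ⊕ κ.ord.ToType → Bool) ∈ XX S l (fun i => i ≤ a) := by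
      rintro ⟨x, hx⟩
      rcases hx with hx | ⟨δ, hδ, -, hx⟩ | ⟨i, -, hx⟩
      · have hne : Nonempty κ.ord.ToType := by
          obtain ⟨s, hs, -⟩ := hS (IsClub.univ)
          exact ⟨s⟩
        exact ⟨Classical.arbitrary _, fun a _ => Or.inl hx⟩
      · exact ⟨δ, fun a ha => Or.inr (Or.inl ⟨δ, hδ, ha, hx⟩)⟩
      · exact ⟨i, fun a ha => Or.inr (Or.inr ⟨i, ha, hx⟩)⟩
    choose idx hidx using hidx
    obtain ⟨a, ha⟩ := exists_upper (t := idx '' A) (by
      rw [hcofα]
      exact (mk_image_le.trans hA).trans_lt hκc)
    obtain ⟨f, hf⟩ := exists_tails hcof hnr hl a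
    exact embeds_bounded hl hf A fun x hx => hidx x a (ha _ ⟨x, hx, rfl⟩))
  exact not_embeds hl hreg hα hS this

theorem Q1_of_measures (h : FineMeasures) : Q1 :=
  Pool.Agent.Helper15.QD.q1_of_fine h

/-- A non-reflecting set refutes `Q1`, and fine measures imply `Q1`. -/
theorem result : (NonReflectingSet → ¬ Q1) ∧ (FineMeasures → Q1) :=
  ⟨not_Q1, Q1_of_measures⟩

end Pool.Agent.Results.MP_ba6bfd_gt.Independence
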