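import Pool.Agent.Helper96.LS.NonEb

/-!
# Compact spaces whose small closures are Eberlein compact: failure in a model of ZFC

There is a countable transitive model `N` of `ZFC` in which the question has a negative answer: in
`N` there is a compact space `X` (a closed subset of a Cantor cube) which is not Eberlein compact,
although the closure in `X` of every subset of size at most the continuum is Eberlein compact.
Hence `ZFC` does not prove the statement of the question.
-/

namespace Pool.Agent.Results.MP_ba6bfd_gt.UnprovableInZFC

open Pool.Agent.Helper96.Fc Pool.Agent.Helper96.LS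

theorem result : ∃ N : Set ZFSet.{0}, N.Countable ∧ IsZFC N ∧ ∃ Γ X : ZFSet.{0},
    ClosedCube N Γ X ∧
    (∀ A ∈ N, ∀ K ∈ N, A ⊆ X → SizeLeC N A → IsClosure Γ X A K → Eberlein N Γ K) ∧
    ¬ Eberlein N Γ X := by
  obtain ⟨N, h1, h2, Γ, X, h3, h4, h5⟩ := main
  exact ⟨N, h1, h2, Γ, X, h3, fun A _ K _ => h4 A K, h5⟩

end Pool.Agent.Results.MP_ba6bfd_gt.UnprovableInZFC
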